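import Pool.Agent.W705.FD.StepA3

/-!
# FD-STEPA: the first step of the proof of the basic inequality
-/

set_option autoImplicit false

open MeasureTheory Metric Set Filter
open scoped ENNReal NNReal Topology

namespace Pool.Agent.W705.FD.StepA

open Pool.Agent.W785.FD

variable {X : Type*} [MetricSpace X] [MeasurableSpace X] {μ : Measure X} {D : ℝ}

/-- the one sided version -/
theorem one_sided [ProperSpace X] [BorelSpace X] (hD : Dbl μ D) (h1 : S_LD μ) (h2 : S_FA μ D)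
    {p C L : ℝ} (h : PI μ p C L) {Λ τ K1 C2 : ℝ} (hΛ : L ≤ Λ) (hτ : 0 < τ) (hK1 : 1 ≤ K1)
    (hC2 : 1 ≤ C2)
    (hK : ∀ (x : X) (r R : ℝ), 0 < r → R ≤ (2 * Λ + 1) * r →
      μ (ball x R) ≤ ENNReal.ofReal K1 * μ (ball x r))
    (hK' : ∀ (x : X) (r R : ℝ), 0 < r → R ≤ (Λ / L) * r →
      μ (ball x R) ≤ ENNReal.ofReal C2 * μ (ball x r))
    {K : ℝ} (hKa : 2 ^ p * (2 * D * K1 / τ) ≤ K)
    (hKb : (2 * D * C * C2 ^ (1 / p) * (1 - (1 / 2 : ℝ) ^ (1 - 1 / p))⁻¹ +
      2 * D ^ 2 * C * C2 ^ (1 / p)) * (2 * D * K1 / τ) ^ (1 / p) ≤ K)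
    (V : Set X) (φ : X → ℝ) (g : X → ℝ≥0∞)
    (hV : NullMeasurableSet V μ) (hφ : Measurable φ) (h0 : ∀ y, 0 ≤ φ y) (hφ1 : ∀ y, φ y ≤ 1)
    (hug : UG φ g) (x : X) (r : ℝ) (hr : 0 < r) (hA : ENNReal.ofReal τ ≤ dens μ V x r)
    (hhalf : dens μ V x r ≤ 1 / 2) : ∃ (z : X) (s : ℝ), 0 < s ∧ s ≤ 2 * r ∧
      dist z x < r ∧ Amb μ V (1 / (2 * D ^ 2)) z s ∧
      ee μ p g Λ z s ≤ ENNReal.ofReal K * ee μ p g (2 * Λ + 1) x r ∧
      ENNReal.ofReal |mean μ φ z s - mean μ φ x r| ≤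
        ENNReal.ofReal K * (ee μ p g (2 * Λ + 1) x r) ^ (1 / p) := by
  have hD1 := hD.one_le
  have hD0 : 0 < D := zero_lt_one.trans_le hD1
  have hp := h.one_lt
  have hp0 : 0 < p := by linarith
  have hip : 0 ≤ 1 / p := by positivity
  have hL1 := h.one_le
  have hL0 : 0 < L := by linarith
  have hΛ1 : 1 ≤ Λ := hL1.trans hΛ
  have hC := h.nonneg
  have hK10 : 0 < K1 := by linarith
  have hC20 : 0 < C2 := by linarith
  have hG : Measurable (fun y => g y ^ p) := hug.1.pow_const p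
  have hLI : LI μ φ := by
    intro y t
    have hfin : IsFiniteMeasure (μ.restrict (ball y t)) := ⟨by
      rw [Measure.restrict_apply_univ]; exact hD.fin y t⟩
    refine Integrable.of_bound hφ.aestronglyMeasurable 1 (Eventually.of_forall fun w => ?_)
    rw [Real.norm_eq_abs, abs_of_nonneg (h0 w)]
    exact hφ1 w
  have hPP : PP μ p C L φ g := h.poin φ g hLI hug
  obtain ⟨z, hz, hDZ, hQ⟩ := exists_point hD h1 h2 hG hΛ1 hK1 hK hτ hV x r hr hA
  obtain ⟨j, hj⟩ := exists_scale hD hV x r hr hhalf z hz hDZ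
  set lam := lav μ (fun y => g y ^ p) x ((2 * Λ + 1) * r) with hlam
  set K0 := 2 * D * K1 / τ with hK0def
  have hK0 : 0 < K0 := by positivity
  refine ⟨z, 2 * r / 2 ^ j, by positivity, div_le_self (by positivity)
    (one_le_pow₀ (by norm_num)), hz, hj, ?_, ?_⟩
  · refine (energy_le hp g Λ r hr z j).trans ?_
    calc ENNReal.ofReal ((2 * r) ^ p) * Q μ (fun y => g y ^ p) Λ r z
        ≤ ENNReal.ofReal ((2 * r) ^ p) * (ENNReal.ofReal K0 * lam) := by gcongr
      _ = ENNReal.ofReal (2 ^ p * K0) * ee μ p g (2 * Λ + 1) x r := by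
          unfold ee
          rw [← hlam, ← mul_assoc, ← mul_assoc, ← ENNReal.ofReal_mul (by positivity),
            ← ENNReal.ofReal_mul (by positivity), Real.mul_rpow (by norm_num) hr.le]
          congr 2
          ring
      _ ≤ _ := by gcongr
  · have e1 := means_le hD hp hC hL0 hΛ hC20 hPP hφ h0 hφ1 hK' r hr z j
    have e2 : ENNReal.ofReal |mean μ φ x r - mean μ φ z (2 * r)| ≤
        ENNReal.ofReal (D ^ 2) * osc μ φ z (2 * r) := by
      apply mean_compare hD φ hφ h0 hφ1 hr (by positivity)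
      · apply ball_subset_ball'
        rw [dist_comm]
        linarith
      · refine le_trans (measure_mono ?_) (dbl_iter hD 2 x r hr)
        apply ball_subset_ball'
        linarith
    have e3 := osc_le hp hC hL0 hΛ hC20 hPP hK' r hr z 0
    rw [pow_zero, div_one, pow_zero, mul_one] at e3
    set θ := (1 / 2 : ℝ) ^ (1 - 1 / p) with hθ
    have hθ0 : 0 < θ := by positivity
    have hθ1 : θ < 1 := by
      apply Real.rpow_lt_one (by norm_num) (by norm_num)
      rw [sub_pos, div_lt_one hp0]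
      exact hp
    have hS : ∑ i ∈ Finset.range j, θ ^ i ≤ (1 - θ)⁻¹ := by
      have hs := (hasSum_geometric_of_lt_one hθ0.le hθ1)
      exact sum_le_hasSum _ (fun i _ => by positivity) hs
    have hθ2 : 0 < 1 - θ := by linarith
    set q := (Q μ (fun y => g y ^ p) Λ r z) ^ (1 / p) with hq
    have hq2 : q ≤ ENNReal.ofReal (K0 ^ (1 / p)) * lam ^ (1 / p) := by
      rw [hq, ← ENNReal.ofReal_rpow_of_nonneg hK0.le hip, ← ENNReal.mul_rpow_of_nonneg _ _ hip]
      exact ENNReal.rpow_le_rpow hQ hip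
    have hee : ENNReal.ofReal r * lam ^ (1 / p) = (ee μ p g (2 * Λ + 1) x r) ^ (1 / p) := by
      unfold ee
      rw [← hlam, ENNReal.mul_rpow_of_nonneg _ _ hip, ENNReal.ofReal_rpow_of_nonneg (by positivity) hip,
        ← Real.rpow_mul hr.le, mul_one_div_cancel hp0.ne', Real.rpow_one]
    have e4 : ENNReal.ofReal |mean μ φ z (2 * r / 2 ^ j) - mean μ φ x r| ≤
        ENNReal.ofReal |mean μ φ z (2 * r / 2 ^ j) - mean μ φ z (2 * r)| +
        ENNReal.ofReal |mean μ φ x r - mean μ φ z (2 * r)| := by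
      rw [← ENNReal.ofReal_add (abs_nonneg _) (abs_nonneg _), abs_sub_comm (mean μ φ x r)]
      exact ENNReal.ofReal_le_ofReal (abs_sub_le _ _ _)
    calc ENNReal.ofReal |mean μ φ z (2 * r / 2 ^ j) - mean μ φ x r|
        ≤ ENNReal.ofReal |mean μ φ z (2 * r / 2 ^ j) - mean μ φ z (2 * r)| +
          ENNReal.ofReal |mean μ φ x r - mean μ φ z (2 * r)| := e4
      _ ≤ ENNReal.ofReal (D * (C * (2 * r) * C2 ^ (1 / p)) * (1 - θ)⁻¹) * q +
          ENNReal.ofReal (D ^ 2) * (ENNReal.ofReal (C * (2 * r) * C2 ^ (1 / p)) * q) := by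
          apply add_le_add
          · refine e1.trans ?_
            gcongr
          · refine e2.trans ?_
            gcongr
      _ = ENNReal.ofReal ((2 * D * C * C2 ^ (1 / p) * (1 - θ)⁻¹ +
            2 * D ^ 2 * C * C2 ^ (1 / p)) * r) * q := by
          rw [← mul_assoc (ENNReal.ofReal (D ^ 2)), ← ENNReal.ofReal_mul (by positivity), ← add_mul,
            ← ENNReal.ofReal_add (by positivity) (by positivity)]
          congr 2
          ring
      _ ≤ ENNReal.ofReal ((2 * D * C * C2 ^ (1 / p) * (1 - θ)⁻¹ +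
            2 * D ^ 2 * C * C2 ^ (1 / p)) * r) *
            (ENNReal.ofReal (K0 ^ (1 / p)) * lam ^ (1 / p)) := by gcongr
      _ = ENNReal.ofReal ((2 * D * C * C2 ^ (1 / p) * (1 - θ)⁻¹ +
            2 * D ^ 2 * C * C2 ^ (1 / p)) * K0 ^ (1 / p)) *
            (ee μ p g (2 * Λ + 1) x r) ^ (1 / p) := by
          rw [← hee, ENNReal.ofReal_mul (by positivity), ENNReal.ofReal_mul (by positivity)]
          ring
      _ ≤ _ := by gcongr

end Pool.Agent.W705.FD.StepA

namespace Pool.Agent.W705.FD.StepA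

open Pool.Agent.W785.FD

theorem main {X : Type*} [MetricSpace X] [ProperSpace X] [MeasurableSpace X] [BorelSpace X]
    (μ : Measure X) (p C L D : ℝ) (hD : Dbl μ D) (h : PI μ p C L) (h1 : S_LD μ)
    (h2 : S_FA μ D) : S_STEPA μ p D L := by
  intro Λ τ hΛ hτ
  obtain ⟨K1, hK1, hK⟩ := exists_dbl hD (2 * Λ + 1)
  obtain ⟨C2, hC2, hK'⟩ := exists_dbl hD (Λ / L)
  have hD1 := hD.one_le
  have hD0 : 0 < D := zero_lt_one.trans_le hD1
  have hK10 : 0 < K1 := by linarith
  set a := 2 ^ p * (2 * D * K1 / τ) with ha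
  set b := (2 * D * C * C2 ^ (1 / p) * (1 - (1 / 2 : ℝ) ^ (1 - 1 / p))⁻¹ +
      2 * D ^ 2 * C * C2 ^ (1 / p)) * (2 * D * K1 / τ) ^ (1 / p) with hb
  have ha0 : 0 < a := by positivity
  refine ⟨max a b, lt_max_of_lt_left ha0, fun V φ g hV hφ h0 hφ1 hug x r hr hA => ?_⟩
  have hadd := dens_add hD hV x r hr
  rcases le_or_gt (dens μ V x r) (1 / 2) with hc | hc
  · exact one_sided hD h1 h2 h hΛ hτ hK1 hC2 hK hK' (le_max_left a b) (le_max_right a b) V φ g hV hφ
      h0 hφ1 hug x r hr hA.1 hc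
  · have hc2 : dens μ Vᶜ x r ≤ 1 / 2 := by
      by_contra hcc
      rw [not_le] at hcc
      have h3 : (1 / 2 : ℝ≥0∞) + 1 / 2 < dens μ V x r + dens μ Vᶜ x r := ENNReal.add_lt_add hc hcc
      rw [hadd, ENNReal.add_halves 1] at h3
      exact lt_irrefl _ h3
    obtain ⟨z, s, hs, hs2, hz, hamb, he, hm⟩ := one_sided hD h1 h2 h hΛ hτ hK1 hC2 hK hK'
      (le_max_left a b) (le_max_right a b) Vᶜ φ g hV.compl hφ h0 hφ1 hug x r hr hA.2 hc2
    refine ⟨z, s, hs, hs2, hz, ⟨?_, hamb.1⟩, he, hm⟩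
    have := hamb.2
    rwa [compl_compl] at this

end Pool.Agent.W705.FD.StepA
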