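import Pool.Agent.W785.FD.Stms

/-!
# FD-STEPA: elementary facts on balls, averages and densities
-/

set_option autoImplicit false

open MeasureTheory Metric Set Filter
open scoped ENNReal NNReal Topology

namespace Pool.Agent.W705.FD.StepA

open Pool.Agent.W785.FD

variable {X : Type*} [MetricSpace X] [MeasurableSpace X] {μ : Measure X} {D : ℝ}

theorem dbl_iter (hD : Dbl μ D) (n : ℕ) (x : X) (r : ℝ) (hr : 0 < r) :
    μ (ball x (2 ^ n * r)) ≤ ENNReal.ofReal (D ^ n) * μ (ball x r) := by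
  have hD0 : 0 ≤ D := zero_le_one.trans hD.one_le
  induction n with
  | zero => simp
  | succ n ih =>
    have h1 : (2 : ℝ) ^ (n + 1) * r = 2 * (2 ^ n * r) := by ring
    rw [h1]
    refine (hD.dbl x _ (by positivity)).trans ?_
    calc ENNReal.ofReal D * μ (ball x (2 ^ n * r))
        ≤ ENNReal.ofReal D * (ENNReal.ofReal (D ^ n) * μ (ball x r)) := by gcongr
      _ = ENNReal.ofReal (D ^ (n + 1)) * μ (ball x r) := by
        rw [← mul_assoc, ← ENNReal.ofReal_mul hD0, pow_succ, mul_comm D]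

theorem exists_dbl (hD : Dbl μ D) (M : ℝ) : ∃ K : ℝ, 1 ≤ K ∧ ∀ (x : X) (r R : ℝ), 0 < r →
    R ≤ M * r → μ (ball x R) ≤ ENNReal.ofReal K * μ (ball x r) := by
  obtain ⟨n, hn⟩ := pow_unbounded_of_one_lt M (by norm_num : (1 : ℝ) < 2)
  refine ⟨D ^ n, one_le_pow₀ hD.one_le, fun x r R hr hR => ?_⟩
  refine le_trans (measure_mono (ball_subset_ball ?_)) (dbl_iter hD n x r hr)
  nlinarith

theorem inv_le_mul_inv {a b : ℝ≥0∞} {K : ℝ} (hK : 0 < K) (h : b ≤ ENNReal.ofReal K * a) :
    a⁻¹ ≤ ENNReal.ofReal K * b⁻¹ := by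
  have hK0 : ENNReal.ofReal K ≠ 0 := by simpa using hK
  have hKt : ENNReal.ofReal K ≠ ∞ := ENNReal.ofReal_ne_top
  have h1 : (ENNReal.ofReal K * a)⁻¹ ≤ b⁻¹ := ENNReal.inv_le_inv.2 h
  rw [ENNReal.mul_inv (Or.inl hK0) (Or.inl hKt)] at h1
  calc a⁻¹ = ENNReal.ofReal K * ((ENNReal.ofReal K)⁻¹ * a⁻¹) := by
        rw [← mul_assoc, ENNReal.mul_inv_cancel hK0 hKt, one_mul]
    _ ≤ ENNReal.ofReal K * b⁻¹ := by gcongr

theorem lav_compare (f : X → ℝ≥0∞) {y z : X} {t s K : ℝ} (hK : 0 < K)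
    (hsub : ball y t ⊆ ball z s) (h : μ (ball z s) ≤ ENNReal.ofReal K * μ (ball y t)) :
    lav μ f y t ≤ ENNReal.ofReal K * lav μ f z s := by
  unfold lav
  rw [ENNReal.div_eq_inv_mul, ENNReal.div_eq_inv_mul, ← mul_assoc]
  exact mul_le_mul' (inv_le_mul_inv hK h) (lintegral_mono_set hsub)

theorem dens_compare (V : Set X) {y z : X} {t s K : ℝ} (hK : 0 < K)
    (hsub : ball y t ⊆ ball z s) (h : μ (ball z s) ≤ ENNReal.ofReal K * μ (ball y t)) :
    dens μ V y t ≤ ENNReal.ofReal K * dens μ V z s := by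
  unfold dens
  rw [ENNReal.div_eq_inv_mul, ENNReal.div_eq_inv_mul, ← mul_assoc]
  exact mul_le_mul' (inv_le_mul_inv hK h) (measure_mono (inter_subset_inter_right V hsub))

theorem dens_add [BorelSpace X] (hD : Dbl μ D) {V : Set X} (hV : NullMeasurableSet V μ) (x : X)
    (r : ℝ) (hr : 0 < r) : dens μ V x r + dens μ Vᶜ x r = 1 := by
  unfold dens
  rw [← ENNReal.add_div]
  have h1 : μ (V ∩ ball x r) + μ (Vᶜ ∩ ball x r) = μ (ball x r) := by
    have := measure_inter_add_sdiff₀ (μ := μ) (ball x r) hV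
    rw [inter_comm V, inter_comm Vᶜ]
    rw [sdiff_eq] at this
    exact this
  rw [h1]
  exact ENNReal.div_self (hD.pos x r hr).ne' (hD.fin x r).ne

theorem amb_aux {a : ℝ≥0∞} {K : ℝ} (hD1 : 1 ≤ D) (hK : 0 < K) (hKD : K ≤ D ^ 2)
    (h : 1 / 2 ≤ ENNReal.ofReal K * a) : ENNReal.ofReal (1 / (2 * D ^ 2)) ≤ a := by
  by_contra hc
  rw [not_le] at hc
  have hK0 : ENNReal.ofReal K ≠ 0 := by simpa using hK
  have h1 : ENNReal.ofReal K * a < ENNReal.ofReal K * ENNReal.ofReal (1 / (2 * D ^ 2)) :=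
    (ENNReal.mul_lt_mul_iff_right hK0 ENNReal.ofReal_ne_top).2 hc
  have h2 : ENNReal.ofReal K * ENNReal.ofReal (1 / (2 * D ^ 2)) ≤ 1 / 2 := by
    rw [← ENNReal.ofReal_mul hK.le]
    have h3 : K * (1 / (2 * D ^ 2)) ≤ 1 / 2 := by
      have : 0 < D ^ 2 := by positivity
      rw [mul_one_div, div_le_div_iff₀ (by positivity) (by norm_num)]
      linarith
    calc ENNReal.ofReal (K * (1 / (2 * D ^ 2))) ≤ ENNReal.ofReal (1 / 2) :=
          ENNReal.ofReal_le_ofReal h3
      _ = 1 / 2 := by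
        rw [ENNReal.ofReal_div_of_pos (by norm_num), ENNReal.ofReal_one]
        norm_num
  exact absurd (h.trans_lt (h1.trans_le h2)) (lt_irrefl _)

/-- comparison of means -/
theorem mean_compare [BorelSpace X] (hD : Dbl μ D) (u : X → ℝ) (hu : Measurable u)
    (h0 : ∀ y, 0 ≤ u y) (h1 : ∀ y, u y ≤ 1) {y z : X} {t s K : ℝ} (ht : 0 < t) (hK : 0 < K)
    (hsub : ball y t ⊆ ball z s) (h : μ (ball z s) ≤ ENNReal.ofReal K * μ (ball y t)) :
    ENNReal.ofReal |mean μ u y t - mean μ u z s| ≤ ENNReal.ofReal K * osc μ u z s := by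
  set m := mean μ u z s with hm
  have hfin : IsFiniteMeasure (μ.restrict (ball y t)) := ⟨by
    rw [Measure.restrict_apply_univ]; exact hD.fin y t⟩
  have hint : Integrable u (μ.restrict (ball y t)) := by
    refine Integrable.of_bound hu.aestronglyMeasurable 1 (Eventually.of_forall fun w => ?_)
    rw [Real.norm_eq_abs, abs_of_nonneg (h0 w)]
    exact h1 w
  have hint2 : Integrable (fun w => u w - m) (μ.restrict (ball y t)) :=
    hint.sub (integrable_const m)
  have hpos : 0 < (μ (ball y t)).toReal :=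
    ENNReal.toReal_pos (hD.pos y t ht).ne' (hD.fin y t).ne
  have e1 : mean μ u y t - m = ((μ (ball y t)).toReal)⁻¹ * ∫ w in ball y t, (u w - m) ∂μ := by
    unfold mean
    rw [setAverage_eq, integral_sub hint (integrable_const m), setIntegral_const, smul_eq_mul,
      smul_eq_mul, Measure.real]
    field_simp
  have e2 : |mean μ u y t - m| ≤ ((μ (ball y t)).toReal)⁻¹ * ∫ w in ball y t, |u w - m| ∂μ := by
    rw [e1, abs_mul, abs_of_pos (inv_pos.2 hpos)]
    exact mul_le_mul_of_nonneg_left (abs_integral_le_integral_abs) (inv_pos.2 hpos).le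
  have e3 : ENNReal.ofReal |mean μ u y t - m| ≤ lav μ (fun w => ENNReal.ofReal |u w - m|) y t := by
    refine (ENNReal.ofReal_le_ofReal e2).trans ?_
    rw [ENNReal.ofReal_mul (inv_pos.2 hpos).le, ENNReal.ofReal_inv_of_pos hpos,
      ENNReal.ofReal_toReal (hD.fin y t).ne,
      ofReal_integral_eq_lintegral_ofReal hint2.abs (Eventually.of_forall fun w => abs_nonneg _)]
    unfold lav
    rw [ENNReal.div_eq_inv_mul]
  refine e3.trans ?_
  unfold osc
  rw [← hm]
  exact lav_compare _ hK hsub h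

/-- measurability of averages -/
theorem meas_lav [ProperSpace X] [BorelSpace X] (hD : Dbl μ D) (f : X → ℝ≥0∞)
    (s : ℝ) : Measurable (fun z => lav μ f z s) := by
  have hlf : IsLocallyFiniteMeasure μ := ⟨fun x => ⟨ball x 1, ball_mem_nhds x one_pos, hD.fin x 1⟩⟩
  have hset : MeasurableSet {q : X × X | dist q.2 q.1 < s} :=
    (isOpen_lt (continuous_snd.dist continuous_fst) continuous_const).measurableSet
  have hν : ∀ ν : Measure X, SFinite ν → Measurable (fun z => ν (ball z s)) := by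
    intro ν hν
    exact measurable_measure_prodMk_left (ν := ν) hset
  have h1 : ∀ z, ∫⁻ y in ball z s, f y ∂μ = (μ.withDensity f) (ball z s) := fun z =>
    (withDensity_apply f measurableSet_ball).symm
  unfold lav
  simp only [h1]
  exact (hν _ inferInstance).div (hν μ inferInstance)

theorem dz_of_ld [BorelSpace X] (hD : Dbl μ D) (hLD : S_LD μ) {V : Set X}
    (hV : NullMeasurableSet V μ) : ∀ᵐ z ∂μ, z ∈ V → DZ μ Vᶜ z := by
  classical
  set u : X → ℝ := V.indicator (fun _ => 1) with hu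
  have hLI : LI μ u := by
    intro x r
    have hfin : IsFiniteMeasure (μ.restrict (ball x r)) := ⟨by
      rw [Measure.restrict_apply_univ]; exact hD.fin x r⟩
    have hm : AEStronglyMeasurable u μ :=
      (aestronglyMeasurable_indicator_iff₀ hV).2 aestronglyMeasurable_const
    refine Integrable.of_bound hm.restrict 1 (Eventually.of_forall fun w => ?_)
    rw [hu, indicator_apply]
    split_ifs <;> simp
  filter_upwards [hLD u hLI] with z hz hzV
  unfold DZ
  refine hz.congr' ?_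
  filter_upwards [self_mem_nhdsWithin] with r hr
  have huz : u z = 1 := by rw [hu, indicator_of_mem hzV]
  unfold lav dens
  congr 1
  have h1 : (fun y => ENNReal.ofReal |u y - u z|) = Vᶜ.indicator (fun _ => (1 : ℝ≥0∞)) := by
    funext y
    rw [huz, hu, indicator_apply, indicator_apply]
    by_cases hy : y ∈ V
    · simp [hy]
    · simp [hy]
  rw [h1, lintegral_indicator_const₀ (hV.compl.mono_ac Measure.absolutelyContinuous_restrict), one_mul,
    Measure.restrict_apply₀ (hV.compl.mono_ac Measure.absolutelyContinuous_restrict)]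

end Pool.Agent.W705.FD.StepA
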