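import Pool.Agent.W705.FD.StepA1

/-!
# FD-STEPA: choice of the point and of the scale
-/

set_option autoImplicit false

open MeasureTheory Metric Set Filter
open scoped ENNReal NNReal Topology

namespace Pool.Agent.W705.FD.StepA

open Pool.Agent.W785.FD

variable {X : Type*} [MetricSpace X] [MeasurableSpace X] {μ : Measure X} {D : ℝ}

/-- The potential. -/
noncomputable def Q (μ : Measure X) (G : X → ℝ≥0∞) (Λ r : ℝ) (z : X) : ℝ≥0∞ :=
  ∑' i : ℕ, (2⁻¹ : ℝ≥0∞) ^ i * lav μ G z (Λ * (2 * r / 2 ^ i))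

theorem meas_Q [ProperSpace X] [BorelSpace X] (hD : Dbl μ D) (G : X → ℝ≥0∞) (Λ r : ℝ) :
    Measurable (Q μ G Λ r) := by
  unfold Q
  exact Measurable.ennreal_tsum fun i => (meas_lav hD G _).const_mul _

theorem tsum_half : ∑' i : ℕ, (2⁻¹ : ℝ≥0∞) ^ i = 2 := by
  rw [ENNReal.tsum_geometric, ENNReal.one_sub_inv_two, inv_inv]

theorem int_Q [ProperSpace X] [BorelSpace X] (hD : Dbl μ D) (h2 : S_FA μ D) {G : X → ℝ≥0∞}
    (hG : Measurable G) {Λ : ℝ} (hΛ : 1 ≤ Λ) {K1 : ℝ} (hK1 : 1 ≤ K1)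
    (hK : ∀ (x : X) (r R : ℝ), 0 < r → R ≤ (2 * Λ + 1) * r →
      μ (ball x R) ≤ ENNReal.ofReal K1 * μ (ball x r)) (x : X) (r : ℝ) (hr : 0 < r) :
    ∫⁻ z in ball x r, Q μ G Λ r z ∂μ ≤
      ENNReal.ofReal (2 * D * K1) * (lav μ G x ((2 * Λ + 1) * r) * μ (ball x r)) := by
  have hD0 : 0 ≤ D := zero_le_one.trans hD.one_le
  have hR : 0 < (2 * Λ + 1) * r := by positivity
  unfold Q
  rw [lintegral_tsum fun i => ((meas_lav hD G _).const_mul _).aemeasurable]
  have h3 : ∀ i : ℕ, ∫⁻ z in ball x r, (2⁻¹ : ℝ≥0∞) ^ i * lav μ G z (Λ * (2 * r / 2 ^ i)) ∂μ ≤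
      (2⁻¹ : ℝ≥0∞) ^ i * (ENNReal.ofReal D * ∫⁻ y in ball x ((2 * Λ + 1) * r), G y ∂μ) := by
    intro i
    rw [lintegral_const_mul _ (meas_lav hD G _)]
    gcongr
    have hs : 0 < Λ * (2 * r / 2 ^ i) := by positivity
    refine (h2 G hG x r _ hs).trans ?_
    gcongr
    have h4 : 2 * r / 2 ^ i ≤ 2 * r := by
      apply div_le_self (by positivity)
      exact one_le_pow₀ (by norm_num)
    nlinarith
  refine (ENNReal.tsum_le_tsum h3).trans ?_
  rw [ENNReal.tsum_mul_right, tsum_half]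
  have h5 : ∫⁻ y in ball x ((2 * Λ + 1) * r), G y ∂μ =
      lav μ G x ((2 * Λ + 1) * r) * μ (ball x ((2 * Λ + 1) * r)) := by
    unfold lav
    rw [ENNReal.div_mul_cancel (hD.pos x _ hR).ne' (hD.fin x _).ne]
  rw [h5]
  calc (2 : ℝ≥0∞) * (ENNReal.ofReal D * (lav μ G x ((2 * Λ + 1) * r) *
        μ (ball x ((2 * Λ + 1) * r))))
      ≤ 2 * (ENNReal.ofReal D * (lav μ G x ((2 * Λ + 1) * r) *
        (ENNReal.ofReal K1 * μ (ball x r)))) := by
        gcongr
        exact hK x r _ hr le_rfl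
    _ = ENNReal.ofReal (2 * D * K1) * (lav μ G x ((2 * Λ + 1) * r) * μ (ball x r)) := by
        rw [ENNReal.ofReal_mul (by positivity), ENNReal.ofReal_mul (by norm_num),
          ENNReal.ofReal_ofNat]
        ring

/-- choice of the point -/
theorem exists_point [ProperSpace X] [BorelSpace X] (hD : Dbl μ D) (h1 : S_LD μ) (h2 : S_FA μ D)
    {G : X → ℝ≥0∞} (hG : Measurable G) {Λ : ℝ} (hΛ : 1 ≤ Λ) {K1 : ℝ} (hK1 : 1 ≤ K1)
    (hK : ∀ (x : X) (r R : ℝ), 0 < r → R ≤ (2 * Λ + 1) * r →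
      μ (ball x R) ≤ ENNReal.ofReal K1 * μ (ball x r)) {τ : ℝ} (hτ : 0 < τ) {V : Set X}
    (hV : NullMeasurableSet V μ) (x : X) (r : ℝ) (hr : 0 < r)
    (hA : ENNReal.ofReal τ ≤ dens μ V x r) :
    ∃ z, dist z x < r ∧ DZ μ Vᶜ z ∧
      Q μ G Λ r z ≤ ENNReal.ofReal (2 * D * K1 / τ) * lav μ G x ((2 * Λ + 1) * r) := by
  have hD0 : 0 ≤ D := zero_le_one.trans hD.one_le
  have hB0 := (hD.pos x r hr).ne'
  have hBt := (hD.fin x r).ne
  have hτ0 : ENNReal.ofReal τ ≠ 0 := by simpa using hτ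
  have hVB : ENNReal.ofReal τ * μ (ball x r) ≤ μ (V ∩ ball x r) := by
    unfold dens at hA
    calc ENNReal.ofReal τ * μ (ball x r) ≤ μ (V ∩ ball x r) / μ (ball x r) * μ (ball x r) := by
          gcongr
      _ = μ (V ∩ ball x r) := ENNReal.div_mul_cancel hB0 hBt
  have hVB0 : μ (V ∩ ball x r) ≠ 0 := by
    intro h0
    rw [h0, nonpos_iff_eq_zero, mul_eq_zero] at hVB
    exact hVB.elim hτ0 hB0
  have hVBt : μ (V ∩ ball x r) ≠ ∞ := ((measure_mono inter_subset_right).trans_lt (hD.fin x r)).ne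
  have hnm : NullMeasurableSet (V ∩ ball x r) μ := hV.inter measurableSet_ball.nullMeasurableSet
  have hne : μ.restrict (V ∩ ball x r) ≠ 0 := by
    rw [Ne, Measure.restrict_eq_zero]
    exact hVB0
  have hgood : ∀ᵐ z ∂(μ.restrict (V ∩ ball x r)), z ∈ V ∩ ball x r ∧ DZ μ Vᶜ z := by
    filter_upwards [ae_restrict_mem₀ hnm, ae_restrict_of_ae (dz_of_ld hD h1 hV)] with z hz hz2
    exact ⟨hz, hz2 hz.1⟩
  have hfm : IsFiniteMeasure (μ.restrict (V ∩ ball x r)) := ⟨by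
    rw [Measure.restrict_apply_univ]; exact hVBt.lt_top⟩
  obtain ⟨z, hzN, hz⟩ := exists_notMem_null_le_laverage hne (meas_Q hD G Λ r).aemeasurable
    (ae_iff.1 hgood)
  simp only [mem_setOf_eq, not_not] at hzN
  refine ⟨z, hzN.1.2, hzN.2, hz.trans ?_⟩
  rw [laverage_eq, Measure.restrict_apply_univ]
  have h6 : ∫⁻ z in V ∩ ball x r, Q μ G Λ r z ∂μ ≤
      ENNReal.ofReal (2 * D * K1) * (lav μ G x ((2 * Λ + 1) * r) * μ (ball x r)) :=
    (lintegral_mono_set inter_subset_right).trans (int_Q hD h2 hG hΛ hK1 hK x r hr)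
  rw [ENNReal.div_le_iff hVB0 hVBt]
  refine h6.trans ?_
  have h7 : ENNReal.ofReal (2 * D * K1) = ENNReal.ofReal (2 * D * K1 / τ) * ENNReal.ofReal τ := by
    rw [← ENNReal.ofReal_mul (by positivity), div_mul_cancel₀ _ hτ.ne']
  rw [h7]
  calc ENNReal.ofReal (2 * D * K1 / τ) * ENNReal.ofReal τ *
        (lav μ G x ((2 * Λ + 1) * r) * μ (ball x r))
      = ENNReal.ofReal (2 * D * K1 / τ) * lav μ G x ((2 * Λ + 1) * r) *
        (ENNReal.ofReal τ * μ (ball x r)) := by ring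
    _ ≤ _ := by gcongr

/-- choice of the scale -/
theorem exists_scale [BorelSpace X] (hD : Dbl μ D) {V : Set X} (hV : NullMeasurableSet V μ)
    (x : X) (r : ℝ) (hr : 0 < r) (hA : dens μ V x r ≤ 1 / 2) (z : X) (hz : dist z x < r)
    (hDZ : DZ μ Vᶜ z) : ∃ j : ℕ, Amb μ V (1 / (2 * D ^ 2)) z (2 * r / 2 ^ j) := by
  classical
  have hD1 := hD.one_le
  have hD0 : 0 < D := zero_lt_one.trans_le hD1
  have hhalf : (1 / 2 : ℝ≥0∞) + 1 / 2 = 1 := ENNReal.add_halves 1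
  have hcomp : ∀ (y : X) (t : ℝ), 0 < t → dens μ V y t ≤ 1 / 2 → 1 / 2 ≤ dens μ Vᶜ y t := by
    intro y t ht h
    by_contra hc
    rw [not_le] at hc
    have := dens_add hD hV y t ht
    have h3 : dens μ V y t + dens μ Vᶜ y t < 1 / 2 + 1 / 2 :=
      ENNReal.add_lt_add_of_le_of_lt (ne_top_of_le_ne_top (by simp) h) h hc
    rw [this, hhalf] at h3
    exact lt_irrefl _ h3
  have hex : ∃ i : ℕ, 1 / 2 < dens μ V z (2 * r / 2 ^ (i + 1)) := by
    have ht : Tendsto (fun i : ℕ => 2 * r / 2 ^ (i + 1)) atTop (𝓝[>] (0 : ℝ)) := by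
      refine tendsto_nhdsWithin_iff.2 ⟨?_, Eventually.of_forall fun i => ?_⟩
      · have h4 : Tendsto (fun i : ℕ => r * (1 / 2 : ℝ) ^ i) atTop (𝓝 (r * 0)) :=
          (tendsto_pow_atTop_nhds_zero_of_lt_one (by norm_num) (by norm_num)).const_mul r
        rw [mul_zero] at h4
        refine h4.congr fun i => ?_
        rw [one_div, inv_pow, pow_succ]
        field_simp
      · show 0 < 2 * r / 2 ^ (i + 1)
        positivity
    have h5 := (hDZ.comp ht).eventually (gt_mem_nhds (show (0 : ℝ≥0∞) < 1 / 2 by simp))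
    obtain ⟨i, hi⟩ := h5.exists
    refine ⟨i, ?_⟩
    by_contra hc
    rw [not_lt] at hc
    exact absurd ((hcomp z _ (by positivity) hc).trans_lt hi) (lt_irrefl _)
  have hi := Nat.find_spec hex
  set i := Nat.find hex with hidef
  refine ⟨i, ?_, ?_⟩
  · -- density of V
    have hsub : ball z (2 * r / 2 ^ (i + 1)) ⊆ ball z (2 * r / 2 ^ i) := by
      apply ball_subset_ball
      have : (2 : ℝ) ^ i ≤ 2 ^ (i + 1) := pow_le_pow_right₀ (by norm_num) (Nat.le_succ i)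
      gcongr
    have hm : μ (ball z (2 * r / 2 ^ i)) ≤ ENNReal.ofReal D * μ (ball z (2 * r / 2 ^ (i + 1))) := by
      have h6 := hD.dbl z (2 * r / 2 ^ (i + 1)) (by positivity)
      have h7 : 2 * (2 * r / 2 ^ (i + 1)) = 2 * r / 2 ^ i := by
        rw [pow_succ]; field_simp
      rwa [h7] at h6
    exact amb_aux hD1 hD0 (by nlinarith) (hi.le.trans (dens_compare V hD0 hsub hm))
  · rcases Nat.eq_zero_or_pos i with h0 | hpos
    · rw [h0, pow_zero, div_one]
      have h8 : 1 / 2 ≤ dens μ Vᶜ x r := hcomp x r hr hA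
      have hsub : ball x r ⊆ ball z (2 * r) := by
        apply ball_subset_ball'
        rw [dist_comm]
        linarith
      have hm : μ (ball z (2 * r)) ≤ ENNReal.ofReal (D ^ 2) * μ (ball x r) := by
        refine le_trans (measure_mono ?_) (dbl_iter hD 2 x r hr)
        apply ball_subset_ball'
        linarith
      exact amb_aux hD1 (by positivity) le_rfl (h8.trans (dens_compare Vᶜ (by positivity) hsub hm))
    · have h9 : ¬ 1 / 2 < dens μ V z (2 * r / 2 ^ (i - 1 + 1)) := by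
        apply Nat.find_min hex
        omega
      rw [not_lt, Nat.sub_add_cancel hpos] at h9
      refine amb_aux (K := 1) hD1 one_pos (one_le_pow₀ hD1) ?_
      rw [ENNReal.ofReal_one, one_mul]
      exact hcomp z _ (by positivity) h9

end Pool.Agent.W705.FD.StepA
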