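import Pool.Agent.W705.FD.StepA2

/-!
# FD-STEPA: energies and means at the chosen scale
-/

set_option autoImplicit false

open MeasureTheory Metric Set Filter
open scoped ENNReal NNReal Topology

namespace Pool.Agent.W705.FD.StepA

open Pool.Agent.W785.FD

variable {X : Type*} [MetricSpace X] [MeasurableSpace X] {μ : Measure X} {D : ℝ}

theorem two_inv_pow (j : ℕ) : (2⁻¹ : ℝ≥0∞) ^ j = ENNReal.ofReal ((1 / 2) ^ j) := by
  rw [ENNReal.ofReal_pow (by norm_num), one_div, ENNReal.ofReal_inv_of_pos (by norm_num),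
    ENNReal.ofReal_ofNat]

theorem term_le_Q (G : X → ℝ≥0∞) (Λ r : ℝ) (z : X) (j : ℕ) :
    ENNReal.ofReal ((1 / 2) ^ j) * lav μ G z (Λ * (2 * r / 2 ^ j)) ≤ Q μ G Λ r z := by
  rw [← two_inv_pow]
  unfold Q
  exact ENNReal.le_tsum (f := fun i : ℕ => (2⁻¹ : ℝ≥0∞) ^ i * lav μ G z (Λ * (2 * r / 2 ^ i))) j

/-- energy at scale `j` -/
theorem energy_le {p : ℝ} (hp : 1 < p) (g : X → ℝ≥0∞) (Λ r : ℝ) (hr : 0 < r) (z : X) (j : ℕ) :
    ee μ p g Λ z (2 * r / 2 ^ j) ≤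
      ENNReal.ofReal ((2 * r) ^ p) * Q μ (fun y => g y ^ p) Λ r z := by
  unfold ee
  have h1 : (2 * r / 2 ^ j) ^ p ≤ (2 * r) ^ p * (1 / 2) ^ j := by
    rw [div_eq_mul_inv, Real.mul_rpow (by positivity) (by positivity)]
    gcongr
    rw [← inv_pow, ← one_div]
    calc ((1 / 2 : ℝ) ^ j) ^ p ≤ ((1 / 2 : ℝ) ^ j) ^ (1 : ℝ) := by
          apply Real.rpow_le_rpow_of_exponent_ge (by positivity) _ hp.le
          exact pow_le_one₀ (by norm_num) (by norm_num)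
      _ = (1 / 2) ^ j := Real.rpow_one _
  calc ENNReal.ofReal ((2 * r / 2 ^ j) ^ p) * lav μ (fun y => g y ^ p) z (Λ * (2 * r / 2 ^ j))
      ≤ ENNReal.ofReal ((2 * r) ^ p * (1 / 2) ^ j) *
        lav μ (fun y => g y ^ p) z (Λ * (2 * r / 2 ^ j)) := by gcongr
    _ = ENNReal.ofReal ((2 * r) ^ p) * (ENNReal.ofReal ((1 / 2) ^ j) *
        lav μ (fun y => g y ^ p) z (Λ * (2 * r / 2 ^ j))) := by
        rw [ENNReal.ofReal_mul (by positivity), mul_assoc]
    _ ≤ _ := by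
        gcongr
        exact term_le_Q _ Λ r z j

/-- the average over the smaller ball -/
theorem lav_small {G : X → ℝ≥0∞} {Λ L C2 : ℝ} (hL : 0 < L) (hLΛ : L ≤ Λ) (hC2 : 0 < C2)
    (hK : ∀ (x : X) (r R : ℝ), 0 < r → R ≤ (Λ / L) * r →
      μ (ball x R) ≤ ENNReal.ofReal C2 * μ (ball x r)) (z : X) (s : ℝ) (hs : 0 < s) :
    lav μ G z (L * s) ≤ ENNReal.ofReal C2 * lav μ G z (Λ * s) := by
  apply lav_compare G hC2
  · apply ball_subset_ball
    gcongr
  · apply hK z _ _ (by positivity)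
    apply le_of_eq
    field_simp

/-- oscillation at scale `j` -/
theorem osc_le {p : ℝ} (hp : 1 < p) {φ : X → ℝ} {g : X → ℝ≥0∞} {Λ L C C2 : ℝ} (hC : 0 ≤ C)
    (hL : 0 < L) (hLΛ : L ≤ Λ) (hC2 : 0 < C2) (hPP : PP μ p C L φ g)
    (hK : ∀ (x : X) (r R : ℝ), 0 < r → R ≤ (Λ / L) * r →
      μ (ball x R) ≤ ENNReal.ofReal C2 * μ (ball x r)) (r : ℝ) (hr : 0 < r) (z : X) (j : ℕ) :
    osc μ φ z (2 * r / 2 ^ j) ≤
      ENNReal.ofReal (C * (2 * r) * C2 ^ (1 / p) * ((1 / 2 : ℝ) ^ (1 - 1 / p)) ^ j) *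
        (Q μ (fun y => g y ^ p) Λ r z) ^ (1 / p) := by
  have hp0 : 0 < p := by linarith
  have hip : 0 ≤ 1 / p := by positivity
  have hs : 0 < 2 * r / 2 ^ j := by positivity
  refine (hPP z _ hs).trans ?_
  have h1 := lav_small (G := fun y => g y ^ p) hL hLΛ hC2 hK z _ hs
  have h2 : lav μ (fun y => g y ^ p) z (Λ * (2 * r / 2 ^ j)) ≤
      ENNReal.ofReal (2 ^ j) * Q μ (fun y => g y ^ p) Λ r z := by
    calc lav μ (fun y => g y ^ p) z (Λ * (2 * r / 2 ^ j))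
        = ENNReal.ofReal (2 ^ j) * (ENNReal.ofReal ((1 / 2) ^ j) *
          lav μ (fun y => g y ^ p) z (Λ * (2 * r / 2 ^ j))) := by
          rw [← mul_assoc, ← ENNReal.ofReal_mul (by positivity), ← mul_pow]
          norm_num
      _ ≤ _ := by
          gcongr
          exact term_le_Q _ Λ r z j
  have h3 : (lav μ (fun y => g y ^ p) z (L * (2 * r / 2 ^ j))) ^ (1 / p) ≤
      ENNReal.ofReal (C2 ^ (1 / p) * (2 ^ j) ^ (1 / p)) *
        (Q μ (fun y => g y ^ p) Λ r z) ^ (1 / p) := by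
    calc (lav μ (fun y => g y ^ p) z (L * (2 * r / 2 ^ j))) ^ (1 / p)
        ≤ (ENNReal.ofReal C2 * (ENNReal.ofReal (2 ^ j) * Q μ (fun y => g y ^ p) Λ r z)) ^ (1 / p) := by
          apply ENNReal.rpow_le_rpow _ hip
          refine h1.trans ?_
          gcongr
      _ = _ := by
          rw [ENNReal.mul_rpow_of_nonneg _ _ hip, ENNReal.mul_rpow_of_nonneg _ _ hip,
            ENNReal.ofReal_rpow_of_nonneg hC2.le hip, ENNReal.ofReal_rpow_of_nonneg (by positivity) hip,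
            ← mul_assoc, ENNReal.ofReal_mul (by positivity)]
  calc ENNReal.ofReal (C * (2 * r / 2 ^ j)) *
        (lav μ (fun y => g y ^ p) z (L * (2 * r / 2 ^ j))) ^ (1 / p)
      ≤ ENNReal.ofReal (C * (2 * r / 2 ^ j)) * (ENNReal.ofReal (C2 ^ (1 / p) * (2 ^ j) ^ (1 / p)) *
        (Q μ (fun y => g y ^ p) Λ r z) ^ (1 / p)) := by gcongr
    _ = _ := by
        rw [← mul_assoc, ← ENNReal.ofReal_mul (by positivity)]
        congr 2
        have h4 : ((1 / 2 : ℝ) ^ (1 - 1 / p)) ^ j = (2 ^ j) ^ (1 / p) / 2 ^ j := by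
          rw [← Real.rpow_natCast, ← Real.rpow_mul (by norm_num), ← Real.rpow_natCast 2 j,
            ← Real.rpow_mul (by norm_num), ← Real.rpow_sub (by norm_num), one_div,
            Real.inv_rpow (by norm_num), ← Real.rpow_neg (by norm_num)]
          congr 1
          ring
        rw [h4]
        ring

/-- telescoping of the means -/
theorem means_le [BorelSpace X] (hD : Dbl μ D) {p : ℝ} (hp : 1 < p) {φ : X → ℝ} {g : X → ℝ≥0∞}
    {Λ L C C2 : ℝ} (hC : 0 ≤ C) (hL : 0 < L) (hLΛ : L ≤ Λ) (hC2 : 0 < C2) (hPP : PP μ p C L φ g)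
    (hφ : Measurable φ) (h0 : ∀ y, 0 ≤ φ y) (h1 : ∀ y, φ y ≤ 1)
    (hK : ∀ (x : X) (r R : ℝ), 0 < r → R ≤ (Λ / L) * r →
      μ (ball x R) ≤ ENNReal.ofReal C2 * μ (ball x r)) (r : ℝ) (hr : 0 < r) (z : X) (n : ℕ) :
    ENNReal.ofReal |mean μ φ z (2 * r / 2 ^ n) - mean μ φ z (2 * r)| ≤
      ENNReal.ofReal (D * (C * (2 * r) * C2 ^ (1 / p)) *
        ∑ j ∈ Finset.range n, ((1 / 2 : ℝ) ^ (1 - 1 / p)) ^ j) *
        (Q μ (fun y => g y ^ p) Λ r z) ^ (1 / p) := by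
  have hD1 := hD.one_le
  have hD0 : 0 < D := zero_lt_one.trans_le hD1
  induction n with
  | zero => simp
  | succ n ih =>
    have hsub : ball z (2 * r / 2 ^ (n + 1)) ⊆ ball z (2 * r / 2 ^ n) := by
      apply ball_subset_ball
      have : (2 : ℝ) ^ n ≤ 2 ^ (n + 1) := pow_le_pow_right₀ (by norm_num) (Nat.le_succ n)
      gcongr
    have hm : μ (ball z (2 * r / 2 ^ n)) ≤ ENNReal.ofReal D * μ (ball z (2 * r / 2 ^ (n + 1))) := by
      have h6 := hD.dbl z (2 * r / 2 ^ (n + 1)) (by positivity)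
      have h7 : 2 * (2 * r / 2 ^ (n + 1)) = 2 * r / 2 ^ n := by
        rw [pow_succ]; field_simp
      rwa [h7] at h6
    have h8 := mean_compare hD φ hφ h0 h1 (by positivity) hD0 hsub hm
    have h9 := osc_le hp hC hL hLΛ hC2 hPP hK r hr z n
    have h10 : ENNReal.ofReal |mean μ φ z (2 * r / 2 ^ (n + 1)) - mean μ φ z (2 * r)| ≤
        ENNReal.ofReal |mean μ φ z (2 * r / 2 ^ (n + 1)) - mean μ φ z (2 * r / 2 ^ n)| +
        ENNReal.ofReal |mean μ φ z (2 * r / 2 ^ n) - mean μ φ z (2 * r)| := by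
      rw [← ENNReal.ofReal_add (abs_nonneg _) (abs_nonneg _)]
      exact ENNReal.ofReal_le_ofReal (abs_sub_le _ _ _)
    refine h10.trans ?_
    rw [Finset.sum_range_succ, mul_add, ENNReal.ofReal_add (by positivity) (by positivity), add_mul,
      add_comm]
    refine add_le_add ih (h8.trans ?_)
    calc ENNReal.ofReal D * osc μ φ z (2 * r / 2 ^ n)
        ≤ ENNReal.ofReal D * (ENNReal.ofReal (C * (2 * r) * C2 ^ (1 / p) *
          ((1 / 2 : ℝ) ^ (1 - 1 / p)) ^ n) * (Q μ (fun y => g y ^ p) Λ r z) ^ (1 / p)) := by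
          gcongr
      _ = _ := by
          rw [← mul_assoc, ← ENNReal.ofReal_mul hD0.le, ← mul_assoc, ← mul_assoc]

end Pool.Agent.W705.FD.StepA
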